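import Pool.Agent.Lib.MP_586990_lc_W.LMain

set_option autoImplicit false

/-!
# MP_586990_lc: Fagin's theorem for distributive lattices, and rudimentary spectra of lattices

For every first-order sentence `φ` (any vocabulary) there are a polynomial `g`, strictly increasing
on the natural numbers, and a sentence `ψ` about partial orders such that, for every class `C` of
partial orders which contains all finite planar distributive lattices, the spectrum of `ψ` in `C`
is `{g n : n ∈ Spec φ, n ≥ 2}`, and the spectrum of `φ` is rudimentary if and only if this set is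
rudimentary.  So all spectra are rudimentary if and only if all spectra of distributive lattices
are, and the same holds for every finitely axiomatised class which contains the planar distributive
lattices.
-/

namespace Pool.Agent.Results.MP_586990_lc.DistributiveLattices

open FirstOrder

/-- Rudimentary sets of natural numbers, as in the frozen statement of the problem: `A` belongs,
as a set of `1`-tuples, to every family which contains the polynomial inequalities and is closed
under complements, intersections and quantification bounded by a polynomial. -/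
def Rudimentary (A : Set ℕ) : Prop :=
  ∀ R : (k : ℕ) → Set (Set (Fin k → ℕ)),
    (∀ (k : ℕ) (p q : MvPolynomial (Fin k) ℕ),
      {v : Fin k → ℕ | MvPolynomial.eval v p ≤ MvPolynomial.eval v q} ∈ R k) →
    (∀ (k : ℕ) (P : Set (Fin k → ℕ)), P ∈ R k → Pᶜ ∈ R k) →
    (∀ (k : ℕ) (P Q : Set (Fin k → ℕ)), P ∈ R k → Q ∈ R k → P ∩ Q ∈ R k) →
    (∀ (k : ℕ) (p : MvPolynomial (Fin k) ℕ) (P : Set (Fin (k + 1) → ℕ)), P ∈ R (k + 1) →
      {v : Fin k → ℕ | ∃ y : ℕ, y ≤ MvPolynomial.eval v p ∧
        (Fin.cons y v : Fin (k + 1) → ℕ) ∈ P} ∈ R k) →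
    {v : Fin 1 → ℕ | v 0 ∈ A} ∈ R 1

/-- The spectrum of a first-order sentence: the sizes of its finite models. -/
def Spectrum {L : FirstOrder.Language.{0, 0}} (φ : L.Sentence) : Set ℕ :=
  {n | ∃ (M : Type) (_ : L.Structure M) (_ : Finite M), Nat.card M = n ∧ φ.Realize M}

/-- The truth of a sentence about partial orders in the partial order `M`. -/
def Holds (M : Type) [PartialOrder M] (ψ : FirstOrder.Language.order.Sentence) : Prop :=
  @FirstOrder.Language.Sentence.Realize FirstOrder.Language.order M
    (FirstOrder.Language.orderStructure M) ψ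

/-- The spectrum of the sentence `ψ` in the class `C` of partial orders: the sizes of the finite
partial orders in `C` which satisfy `ψ`. -/
def SpectrumIn (C : ∀ (M : Type), PartialOrder M → Prop)
    (ψ : FirstOrder.Language.order.Sentence) : Set ℕ :=
  {n | ∃ (M : Type) (i : PartialOrder M) (_ : Finite M), Nat.card M = n ∧ C M i ∧ Holds M ψ}

/-- `M` is isomorphic to a sublattice of `ℕ × ℕ` (for nonempty finite `M`: `M` is a planar
distributive lattice). -/
def IsPlanarDistributive (M : Type) [PartialOrder M] : Prop :=
  ∃ f : M → ℕ × ℕ, (∀ x y, x ≤ y ↔ f x ≤ f y) ∧ (∀ x y, ∃ z, f z = f x ⊓ f y) ∧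
    ∀ x y, ∃ z, f z = f x ⊔ f y

/-- The class of nonempty distributive lattices. -/
def DistributiveLattice : ∀ (M : Type), PartialOrder M → Prop :=
  fun M i => Nonempty M ∧ ∃ d : DistribLattice M, d.toPartialOrder = i

/-- Every spectrum is, up to a strictly increasing polynomial, a spectrum of planar distributive
lattices, and one of the two sets is rudimentary if and only if the other one is.  All spectra are
rudimentary if and only if all spectra in `C` are, for `C` the class of distributive lattices and
for every class `C` of partial orders which contains the planar distributive lattices and is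
axiomatised among the finite partial orders by one sentence. -/
theorem result :
    (∀ (L : FirstOrder.Language.{0, 0}) (φ : L.Sentence),
      ∃ (g : Polynomial ℕ) (ψ : FirstOrder.Language.order.Sentence),
        StrictMono (fun n => g.eval n) ∧
        ∀ C : ∀ (M : Type), PartialOrder M → Prop,
          (∀ (M : Type) (i : PartialOrder M), Finite M → Nonempty M →
            @IsPlanarDistributive M i → C M i) →
          SpectrumIn C ψ = {s | ∃ n ∈ Spectrum φ, 2 ≤ n ∧ s = g.eval n} ∧
          (Rudimentary (Spectrum φ) ↔ Rudimentary (SpectrumIn C ψ))) ∧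
    ((∀ (L : FirstOrder.Language.{0, 0}) (φ : L.Sentence), Rudimentary (Spectrum φ)) ↔
      ∀ ψ : FirstOrder.Language.order.Sentence,
        Rudimentary (SpectrumIn DistributiveLattice ψ)) ∧
    ∀ C : ∀ (M : Type), PartialOrder M → Prop,
      (∀ (M : Type) (i : PartialOrder M), Finite M → Nonempty M →
        @IsPlanarDistributive M i → C M i) →
      (∃ χ : FirstOrder.Language.order.Sentence, ∀ (M : Type) (i : PartialOrder M),
        Finite M → (@Holds M i χ ↔ C M i)) →
      ((∀ (L : FirstOrder.Language.{0, 0}) (φ : L.Sentence), Rudimentary (Spectrum φ)) ↔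
        ∀ ψ : FirstOrder.Language.order.Sentence, Rudimentary (SpectrumIn C ψ)) := by
  have h2 : ∀ A : Set ℕ, Rudimentary A ↔ Pool.Agent.Lib.MP_586990_lc.Rud A := fun A =>
    Pool.Agent.Lib.MP_586990_lc.rud_iff.symm
  have h3 : (∀ (L : FirstOrder.Language.{0, 0}) (φ : L.Sentence), Rudimentary (Spectrum φ)) ↔
      ∀ (L : FirstOrder.Language.{0, 0}) (φ : L.Sentence),
        Pool.Agent.Lib.MP_586990_lc.Rud (Pool.Agent.Lib.MP_586990_lc.Spec φ) :=
    forall_congr' fun L => forall_congr' fun φ => h2 _
  refine ⟨fun L φ => ?_, ?_, fun C hC hχ => ?_⟩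
  · obtain ⟨p, ψ, hp, h⟩ := Pool.Agent.Lib.MP_586990_lc.W.exists_lattice φ
    refine ⟨p, ψ, hp, fun C hC => ?_⟩
    have h1 : SpectrumIn C ψ = {s | ∃ n ∈ Spectrum φ, 2 ≤ n ∧ s = p.eval n} := h C hC
    refine ⟨h1, ?_⟩
    rw [h2, h2, h1]
    exact Pool.Agent.Lib.MP_586990_lc.W.rud_img_iff p 0 hp (Nat.zero_le _)
  · rw [h3, Pool.Agent.Lib.MP_586990_lc.W.main_distr]
    exact forall_congr' fun ψ => (h2 _).symm
  · rw [h3, Pool.Agent.Lib.MP_586990_lc.W.main_lattice C hC hχ]
    exact forall_congr' fun ψ => (h2 _).symm

end Pool.Agent.Results.MP_586990_lc.DistributiveLattices
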