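import Pool.Agent.Lib.MP_586990_lc_R.LatMain

set_option autoImplicit false

/-!
# MP_586990_lc: every rudimentary set is the spectrum of a sentence about distributive lattices

For every rudimentary set `A` of positive integers there is a sentence about partial orders whose
spectrum in every class of partial orders which contains the finite distributive lattices is `A`.
So for `T` = distributive lattices (and lattices, modular lattices, ..) the rudimentary sets are
among the spectra in `T`, and these are exactly the rudimentary sets if and only if the spectra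
are exactly the rudimentary sets.
-/

namespace Pool.Agent.Results.MP_586990_lc.RudimentaryLattices

open FirstOrder

/-- Rudimentary sets of natural numbers, as in the frozen statement of the problem: `A` belongs,
as a set of `1`-tuples, to every family which contains the polynomial inequalities and is closed
under complements, intersections and quantification bounded by a polynomial. -/
def Rudimentary (A : Set ℕ) : Prop :=
  ∀ R : (k : ℕ) → Set (Set (Fin k → ℕ)),
    (∀ (k : ℕ) (p q : MvPolynomial (Fin k) ℕ),
      {v : Fin k → ℕ | MvPolynomial.eval v p ≤ MvPolynomial.eval v q} ∈ R k) →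
    (∀ (k : ℕ) (P : Set (Fin k → ℕ)), P ∈ R k → Pᶜ ∈ R k) →
    (∀ (k : ℕ) (P Q : Set (Fin k → ℕ)), P ∈ R k → Q ∈ R k → P ∩ Q ∈ R k) →
    (∀ (k : ℕ) (p : MvPolynomial (Fin k) ℕ) (P : Set (Fin (k + 1) → ℕ)), P ∈ R (k + 1) →
      {v : Fin k → ℕ | ∃ y : ℕ, y ≤ MvPolynomial.eval v p ∧
        (Fin.cons y v : Fin (k + 1) → ℕ) ∈ P} ∈ R k) →
    {v : Fin 1 → ℕ | v 0 ∈ A} ∈ R 1

/-- The spectrum of a first-order sentence: the sizes of its finite models. -/
def Spectrum {L : FirstOrder.Language.{0, 0}} (φ : L.Sentence) : Set ℕ :=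
  {n | ∃ (M : Type) (_ : L.Structure M) (_ : Finite M), Nat.card M = n ∧ φ.Realize M}

/-- The truth of a sentence about partial orders in the partial order `M`. -/
def Holds (M : Type) [PartialOrder M] (ψ : FirstOrder.Language.order.Sentence) : Prop :=
  @FirstOrder.Language.Sentence.Realize FirstOrder.Language.order M
    (FirstOrder.Language.orderStructure M) ψ

/-- The spectrum of the sentence `ψ` in the class `C` of partial orders: the sizes of the finite
partial orders in `C` which satisfy `ψ`. -/
def SpectrumIn (C : ∀ (M : Type), PartialOrder M → Prop)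
    (ψ : FirstOrder.Language.order.Sentence) : Set ℕ :=
  {n | ∃ (M : Type) (i : PartialOrder M) (_ : Finite M), Nat.card M = n ∧ C M i ∧ Holds M ψ}

/-- The class of nonempty distributive lattices. -/
def DistributiveLattice : ∀ (M : Type), PartialOrder M → Prop :=
  fun M i => Nonempty M ∧ ∃ d : DistribLattice M, d.toPartialOrder = i

/-- The class of the finite distributive lattices is axiomatised by one sentence.  For every
rudimentary set `A` there is a sentence `ψ` with the spectrum `A` (without `0`) in every class `C`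
of partial orders which contains the finite distributive lattices.  If such a class `C` is
axiomatised among the finite partial orders by one sentence, then the spectra in `C` are spectra,
and the spectra (of arbitrary sentences) without `0` are exactly the rudimentary sets without `0`
if and only if the spectra in `C` without `0` are. -/
theorem result :
    (∃ χ : FirstOrder.Language.order.Sentence, ∀ (M : Type) (i : PartialOrder M),
      Finite M → (@Holds M i χ ↔ DistributiveLattice M i)) ∧
    (∀ A : Set ℕ, Rudimentary A → ∃ ψ : FirstOrder.Language.order.Sentence,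
      ∀ C : ∀ (M : Type), PartialOrder M → Prop,
        (∀ (M : Type) (i : PartialOrder M), Finite M → DistributiveLattice M i → C M i) →
        SpectrumIn C ψ = {n | n ∈ A ∧ n ≠ 0}) ∧
    ∀ C : ∀ (M : Type), PartialOrder M → Prop,
      (∀ (M : Type) (i : PartialOrder M), Finite M → DistributiveLattice M i → C M i) →
      (∃ χ : FirstOrder.Language.order.Sentence, ∀ (M : Type) (i : PartialOrder M),
        Finite M → (@Holds M i χ ↔ C M i)) →
      (∀ ψ : FirstOrder.Language.order.Sentence,
        ∃ (L : FirstOrder.Language.{0, 0}) (φ : L.Sentence), Spectrum φ = SpectrumIn C ψ) ∧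
      ((∀ A : Set ℕ, 0 ∉ A → (Rudimentary A ↔
          ∃ (L : FirstOrder.Language.{0, 0}) (φ : L.Sentence), Spectrum φ = A)) ↔
        ∀ A : Set ℕ, 0 ∉ A → (Rudimentary A ↔
          ∃ ψ : FirstOrder.Language.order.Sentence, SpectrumIn C ψ = A)) := by
  have h2 : ∀ A : Set ℕ, Rudimentary A ↔ Pool.Agent.Lib.MP_586990_lc.Rud A := fun A =>
    Pool.Agent.Lib.MP_586990_lc.rud_iff.symm
  have hA : ∀ A : Set ℕ, Rudimentary A → ∃ ψ : FirstOrder.Language.order.Sentence,
      ∀ C : ∀ (M : Type), PartialOrder M → Prop,
        (∀ (M : Type) (i : PartialOrder M), Finite M → DistributiveLattice M i → C M i) →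
        SpectrumIn C ψ = {n | n ∈ A ∧ n ≠ 0} := by
    intro A h
    obtain ⟨ψ, hψ⟩ := Pool.Agent.Lib.MP_586990_lc.R.rud_lattice ((h2 A).1 h)
    refine ⟨ψ, fun C hC => ?_⟩
    have h3 : SpectrumIn C ψ = {n | n ∈ A ∧ 1 ≤ n} := hψ C fun M i hf hd =>
      hC M i hf (Pool.Agent.Lib.MP_586990_lc.W.DL_iff.1 hd)
    rw [h3]
    ext n
    exact and_congr_right fun _ => Nat.one_le_iff_ne_zero
  have h3 : ∀ A : Set ℕ, 0 ∉ A → {n | n ∈ A ∧ n ≠ 0} = A := by
    intro A h
    ext n
    exact ⟨fun h' => h'.1, fun h' => ⟨h', fun h'' => h (h'' ▸ h')⟩⟩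
  refine ⟨?_, hA, fun C hC hχ => ?_⟩
  · obtain ⟨χ, hχ⟩ := Pool.Agent.Lib.MP_586990_lc.W.exists_dlSentence
    exact ⟨χ, fun M i hf => (hχ M i).trans Pool.Agent.Lib.MP_586990_lc.W.DL_iff⟩
  · have h4 : ∀ ψ : FirstOrder.Language.order.Sentence,
        ∃ φ : FirstOrder.Language.order.Sentence, Spectrum φ = SpectrumIn C ψ :=
      Pool.Agent.Lib.MP_586990_lc.W.classSpec hχ
    have h5 := Pool.Agent.Lib.MP_586990_lc.W.main_lattice C
      (fun M i hf hne hpl => hC M i hf ⟨hne, hpl.distrib⟩) hχ
    refine ⟨fun ψ => ⟨_, h4 ψ⟩, ?_, ?_⟩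
    · intro h A h0
      constructor
      · intro hr
        obtain ⟨ψ, hψ⟩ := hA A hr
        exact ⟨ψ, (hψ C hC).trans (h3 A h0)⟩
      · rintro ⟨ψ, hψ⟩
        obtain ⟨φ, hφ⟩ := h4 ψ
        exact (h A h0).2 ⟨_, φ, hφ.trans hψ⟩
    · intro h A h0
      constructor
      · intro hr
        obtain ⟨ψ, hψ⟩ := hA A hr
        obtain ⟨φ, hφ⟩ := h4 ψ
        exact ⟨_, φ, hφ.trans ((hψ C hC).trans (h3 A h0))⟩
      · rintro ⟨L, φ, hφ⟩
        rw [h2, ← hφ]
        refine h5.2 (fun ψ => ?_) L φ
        have h6 : ∃ ψ' : FirstOrder.Language.order.Sentence,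
            SpectrumIn C ψ' = {n | n ∈ SpectrumIn C ψ ∧ n ≠ 0} := by
          refine ⟨ψ ⊓ FirstOrder.Language.Sentence.cardGe _ 1, ?_⟩
          have h7 : ∀ (M : Type) (i : PartialOrder M), Finite M →
              (@Holds M i (ψ ⊓ FirstOrder.Language.Sentence.cardGe _ 1) ↔
                @Holds M i ψ ∧ Nat.card M ≠ 0) := by
            intro M i hf
            let _ := FirstOrder.Language.orderStructure M
            have h8 := FirstOrder.Language.Sentence.realize_cardGe
              (L := FirstOrder.Language.order) (M := M) 1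
            unfold Holds
            rw [FirstOrder.Language.Sentence.realize_inf, h8, ← Nat.cast_card, Nat.cast_le,
              Nat.one_le_iff_ne_zero]
          ext n
          constructor
          · rintro ⟨M, i, hf, hn, hc, hh⟩
            obtain ⟨h8, h9⟩ := (h7 M i hf).1 hh
            exact ⟨⟨M, i, hf, hn, hc, h8⟩, hn ▸ h9⟩
          · rintro ⟨⟨M, i, hf, hn, hc, hh⟩, h0'⟩
            exact ⟨M, i, hf, hn, hc, (h7 M i hf).2 ⟨hh, hn ▸ h0'⟩⟩
        obtain ⟨ψ', hψ'⟩ := h6
        have h7 := (h2 _).1 ((h {n | n ∈ SpectrumIn C ψ ∧ n ≠ 0} fun h => h.2 rfl).2 ⟨ψ', hψ'⟩)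
        exact h7.change 1 fun n hn => ⟨fun h => h.1, fun h => ⟨h, by omega⟩⟩

end Pool.Agent.Results.MP_586990_lc.RudimentaryLattices
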