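import Pool.Agent.Lib.MP_586990_lc.Main
import Pool.Agent.Lib.MP_586990_lc.RudImg

set_option autoImplicit false

/-!
# MP_586990_lc: Fagin's theorem for semiorders, and rudimentary spectra of semiorders

For every first-order sentence `φ` (any vocabulary) there are `c, q ≥ 1` and a sentence `ψ` about
partial orders such that, for every class `C` of partial orders which contains all finite
semiorders, the spectrum of `ψ` in `C` is `{c n ^ q : n ∈ Spec φ, n ≥ 2}`, and the spectrum of `φ`
is rudimentary if and only if this set is rudimentary.  So all spectra are rudimentary if and only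
if all spectra of semiorders are.
-/

namespace Pool.Agent.Results.MP_586990_lc.Semiorders

open FirstOrder

/-- Rudimentary sets of natural numbers, as in the frozen statement of the problem: `A` belongs,
as a set of `1`-tuples, to every family which contains the polynomial inequalities and is closed
under complements, intersections and quantification bounded by a polynomial. -/
def Rudimentary (A : Set ℕ) : Prop :=
  ∀ R : (k : ℕ) → Set (Set (Fin k → ℕ)),
    (∀ (k : ℕ) (p q : MvPolynomial (Fin k) ℕ),
      {v : Fin k → ℕ | MvPolynomial.eval v p ≤ MvPolynomial.eval v q} ∈ R k) →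
    (∀ (k : ℕ) (P : Set (Fin k → ℕ)), P ∈ R k → Pᶜ ∈ R k) →
    (∀ (k : ℕ) (P Q : Set (Fin k → ℕ)), P ∈ R k → Q ∈ R k → P ∩ Q ∈ R k) →
    (∀ (k : ℕ) (p : MvPolynomial (Fin k) ℕ) (P : Set (Fin (k + 1) → ℕ)), P ∈ R (k + 1) →
      {v : Fin k → ℕ | ∃ y : ℕ, y ≤ MvPolynomial.eval v p ∧
        (Fin.cons y v : Fin (k + 1) → ℕ) ∈ P} ∈ R k) →
    {v : Fin 1 → ℕ | v 0 ∈ A} ∈ R 1

/-- The spectrum of a first-order sentence: the sizes of its finite models. -/
def Spectrum {L : FirstOrder.Language.{0, 0}} (φ : L.Sentence) : Set ℕ :=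
  {n | ∃ (M : Type) (_ : L.Structure M) (_ : Finite M), Nat.card M = n ∧ φ.Realize M}

/-- `M` is a semiorder: a partial order without induced suborders `2 + 2` and `3 + 1`. -/
def IsSemiorder (M : Type) [PartialOrder M] : Prop :=
  (∀ a b c d : M, a < b → c < d → a < d ∨ c < b) ∧
  (∀ a b c d : M, a < b → b < c → a < d ∨ d < c)

/-- The spectrum of the sentence `ψ` in the class `C` of partial orders: the sizes of the finite
partial orders in `C` which satisfy `ψ`. -/
def SpectrumIn (C : ∀ (M : Type), PartialOrder M → Prop)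
    (ψ : FirstOrder.Language.order.Sentence) : Set ℕ :=
  {n | ∃ (M : Type) (i : PartialOrder M) (_ : Finite M), Nat.card M = n ∧ C M i ∧
    @FirstOrder.Language.Sentence.Realize FirstOrder.Language.order M
      (FirstOrder.Language.orderStructure M) ψ}

/-- Every spectrum is, up to `n ↦ c n ^ q`, a spectrum of semiorders, and one of the two sets is
rudimentary if and only if the other one is.  All spectra are rudimentary if and only if all
spectra of semiorders are. -/
theorem result :
    (∀ (L : FirstOrder.Language.{0, 0}) (φ : L.Sentence),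
      ∃ (c q : ℕ) (ψ : FirstOrder.Language.order.Sentence), 1 ≤ c ∧ 1 ≤ q ∧
        ∀ C : ∀ (M : Type), PartialOrder M → Prop,
          (∀ (M : Type) (i : PartialOrder M), Finite M → @IsSemiorder M i → C M i) →
          SpectrumIn C ψ = {s | ∃ n ∈ Spectrum φ, 2 ≤ n ∧ s = c * n ^ q} ∧
          (Rudimentary (Spectrum φ) ↔ Rudimentary (SpectrumIn C ψ))) ∧
    ((∀ (L : FirstOrder.Language.{0, 0}) (φ : L.Sentence), Rudimentary (Spectrum φ)) ↔
      ∀ ψ : FirstOrder.Language.order.Sentence,
        Rudimentary (SpectrumIn (fun M _ => IsSemiorder M) ψ)) := by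
  have h2 : ∀ A : Set ℕ, Rudimentary A ↔ Pool.Agent.Lib.MP_586990_lc.Rud A := fun A =>
    Pool.Agent.Lib.MP_586990_lc.rud_iff.symm
  refine ⟨fun L φ => ?_, ?_⟩
  · obtain ⟨c, q, ψ, hc, hq, h⟩ := Pool.Agent.Lib.MP_586990_lc.exists_semi φ
    refine ⟨c, q, ψ, hc, hq, fun C hC => ?_⟩
    have h1 : SpectrumIn C ψ = {s | ∃ n ∈ Spectrum φ, 2 ≤ n ∧ s = c * n ^ q} := h C hC
    refine ⟨h1, ?_⟩
    rw [h2, h2, h1]
    constructor
    · intro h3
      exact h3.image hc hq
    · intro h3
      refine (h3.pow c q).change 2 fun n hn => ?_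
      constructor
      · rintro ⟨n', hmem, -, heq⟩
        have h4 : n ^ q = n' ^ q := Nat.eq_of_mul_eq_mul_left hc heq
        rw [Nat.pow_left_injective (Nat.pos_iff_ne_zero.1 hq) h4]
        exact hmem
      · intro hmem
        exact ⟨n, hmem, hn, rfl⟩
  · have h5 := Pool.Agent.Lib.MP_586990_lc.main_iff
    constructor
    · intro h ψ
      exact (h2 _).2 (h5.1 (fun L φ => (h2 _).1 (h L φ)) ψ)
    · intro h L φ
      exact (h2 _).2 (h5.2 (fun ψ => (h2 _).1 (h ψ)) L φ)

end Pool.Agent.Results.MP_586990_lc.Semiorders
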