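import Pool.Agent.Lib.MP_586990_lc_W.TwMain

set_option autoImplicit false

/-!
# MP_586990_lc: Fagin's theorem for two linear orders (permutations)

For every first-order sentence `φ` (any vocabulary) there are a polynomial `g`, strictly increasing
on the natural numbers, and a sentence `ψ` about two linear orders such that, for every class `C`
of sets with two linear orders which contains all finite ones whose permutation avoids `321`, the
spectrum of `ψ` in `C` is `{g n - 1 : n ∈ Spec φ, n ≥ 2}`, and the spectrum of `φ` is rudimentary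
if and only if this set is rudimentary.  So all spectra are rudimentary if and only if all spectra
of sentences about two linear orders are.
-/

namespace Pool.Agent.Results.MP_586990_lc.TwoLinearOrders

open FirstOrder

/-- Rudimentary sets of natural numbers, as in the frozen statement of the problem: `A` belongs,
as a set of `1`-tuples, to every family which contains the polynomial inequalities and is closed
under complements, intersections and quantification bounded by a polynomial. -/
def Rudimentary (A : Set ℕ) : Prop :=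
  ∀ R : (k : ℕ) → Set (Set (Fin k → ℕ)),
    (∀ (k : ℕ) (p q : MvPolynomial (Fin k) ℕ),
      {v : Fin k → ℕ | MvPolynomial.eval v p ≤ MvPolynomial.eval v q} ∈ R k) →
    (∀ (k : ℕ) (P : Set (Fin k → ℕ)), P ∈ R k → Pᶜ ∈ R k) →
    (∀ (k : ℕ) (P Q : Set (Fin k → ℕ)), P ∈ R k → Q ∈ R k → P ∩ Q ∈ R k) →
    (∀ (k : ℕ) (p : MvPolynomial (Fin k) ℕ) (P : Set (Fin (k + 1) → ℕ)), P ∈ R (k + 1) →
      {v : Fin k → ℕ | ∃ y : ℕ, y ≤ MvPolynomial.eval v p ∧
        (Fin.cons y v : Fin (k + 1) → ℕ) ∈ P} ∈ R k) →
    {v : Fin 1 → ℕ | v 0 ∈ A} ∈ R 1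

/-- The spectrum of a first-order sentence: the sizes of its finite models. -/
def Spectrum {L : FirstOrder.Language.{0, 0}} (φ : L.Sentence) : Set ℕ :=
  {n | ∃ (M : Type) (_ : L.Structure M) (_ : Finite M), Nat.card M = n ∧ φ.Realize M}

open Pool.Agent.Lib.MP_586990_lc.W (twoLang twoStr Avoids321)

/-- The spectrum of the sentence `ψ` in the class `C` of sets with two linear orders: the sizes of
the finite members of `C` which satisfy `ψ`; `twoLang` is the language with two binary relation
symbols, `twoStr M i j` is the structure on `M` given by the linear orders `i`, `j`. -/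
def SpectrumIn (C : ∀ (M : Type), LinearOrder M → LinearOrder M → Prop)
    (ψ : twoLang.Sentence) : Set ℕ :=
  {n | ∃ (M : Type) (i j : LinearOrder M) (_ : Finite M), Nat.card M = n ∧ C M i j ∧
    @FirstOrder.Language.Sentence.Realize twoLang M (twoStr M i j) ψ}

/-- Every spectrum is, up to a strictly increasing polynomial, a spectrum of two linear orders
(of permutations which avoid `321`), and one of the two sets is rudimentary if and only if the
other one is.  All spectra are rudimentary if and only if all spectra of two linear orders are, and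
if and only if all spectra of permutations which avoid `321` are. -/
theorem result :
    (∀ (L : FirstOrder.Language.{0, 0}) (φ : L.Sentence),
      ∃ (g : Polynomial ℕ) (ψ : twoLang.Sentence), StrictMono (fun n => g.eval n) ∧
        ∀ C : ∀ (M : Type), LinearOrder M → LinearOrder M → Prop,
          (∀ (M : Type) (i j : LinearOrder M), Finite M → Avoids321 M i j → C M i j) →
          SpectrumIn C ψ = {s | ∃ n ∈ Spectrum φ, 2 ≤ n ∧ s + 1 = g.eval n} ∧
          (Rudimentary (Spectrum φ) ↔ Rudimentary (SpectrumIn C ψ))) ∧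
    ((∀ (L : FirstOrder.Language.{0, 0}) (φ : L.Sentence), Rudimentary (Spectrum φ)) ↔
      ∀ ψ : twoLang.Sentence, Rudimentary (SpectrumIn (fun _ _ _ => True) ψ)) ∧
    ((∀ (L : FirstOrder.Language.{0, 0}) (φ : L.Sentence), Rudimentary (Spectrum φ)) ↔
      ∀ ψ : twoLang.Sentence, Rudimentary (SpectrumIn Avoids321 ψ)) := by
  have h2 : ∀ A : Set ℕ, Rudimentary A ↔ Pool.Agent.Lib.MP_586990_lc.Rud A := fun A =>
    Pool.Agent.Lib.MP_586990_lc.rud_iff.symm
  have h3 : (∀ (L : FirstOrder.Language.{0, 0}) (φ : L.Sentence), Rudimentary (Spectrum φ)) ↔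
      ∀ (L : FirstOrder.Language.{0, 0}) (φ : L.Sentence),
        Pool.Agent.Lib.MP_586990_lc.Rud (Pool.Agent.Lib.MP_586990_lc.Spec φ) :=
    forall_congr' fun L => forall_congr' fun φ => h2 _
  refine ⟨fun L φ => ?_, ?_, ?_⟩
  · obtain ⟨p, ψ, hp, hp2, h⟩ := Pool.Agent.Lib.MP_586990_lc.W.exists_two φ
    refine ⟨p, ψ, hp, fun C hC => ?_⟩
    have h1 : SpectrumIn C ψ = {s | ∃ n ∈ Spectrum φ, 2 ≤ n ∧ s + 1 = p.eval n} := h C hC
    refine ⟨h1, ?_⟩
    rw [h2, h2, h1]
    exact Pool.Agent.Lib.MP_586990_lc.W.rud_img_iff p 1 hp hp2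
  · rw [h3, Pool.Agent.Lib.MP_586990_lc.W.main_two (fun _ _ _ => True) (fun _ _ _ _ _ => trivial)
      ⟨⊤, fun M i j _ => by
        let _ := twoStr M i j
        exact iff_of_true (FirstOrder.Language.Formula.realize_top.2 trivial) trivial⟩]
    exact forall_congr' fun ψ => (h2 _).symm
  · obtain ⟨χ, hχ⟩ := Pool.Agent.Lib.MP_586990_lc.W.exists_avoids
    rw [h3, Pool.Agent.Lib.MP_586990_lc.W.main_two Avoids321 (fun _ _ _ _ h => h)
      ⟨χ, fun M i j _ => hχ M i j⟩]
    exact forall_congr' fun ψ => (h2 _).symm

end Pool.Agent.Results.MP_586990_lc.TwoLinearOrders
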